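import Mathlib

namespace Pool.Agent.Results.MP_698530_nt.Divides

open Nat

/-- Auxiliary array: `F x y = (2 x choose x) (x choose y) / (2 y choose y)`. -/
def F : ℕ → ℕ → ℕ
  | x, 0 => centralBinom x
  | 0, _ + 1 => 0
  | x + 1, y + 1 => 4 * F x (y + 1) + F x y

theorem F_spec (x : ℕ) : ∀ y : ℕ, F x y * centralBinom y = centralBinom x * x.choose y := by
  induction x with
  | zero =>
    intro y
    cases y with
    | zero => simp [F]
    | succ y => simp [F]
  | succ x ih =>
    intro y
    cases y with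
    | zero => simp [F]
    | succ y =>
      have h1 := ih (y + 1)
      have h2 := ih y
      have h3 := Nat.succ_mul_centralBinom_succ y
      have h4 := Nat.succ_mul_centralBinom_succ x
      have h5 := Nat.choose_succ_right_eq x y
      have h6 := Nat.add_one_mul_choose_eq x y
      rcases le_or_gt y x with hyx | hyx
      · obtain ⟨z, rfl⟩ := Nat.exists_eq_add_of_le hyx
        rw [Nat.add_sub_cancel_left] at h5
        have e : (4 * F (y + z) (y + 1) + F (y + z) y) * centralBinom (y + 1) * (y + 1) =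
            centralBinom (y + z + 1) * (y + z + 1).choose (y + 1) * (y + 1) := by
          zify at *
          linear_combination (4 * ((y : ℤ) + 1)) * h1 + (2 * (2 * (y : ℤ) + 1)) * h2 +
            (F (y + z) y : ℤ) * h3 + (4 * (centralBinom (y + z) : ℤ)) * h5 +
            (centralBinom (y + z + 1) : ℤ) * h6 - ((y + z).choose y : ℤ) * h4
        have := Nat.eq_of_mul_eq_mul_right (Nat.succ_pos y) e
        simpa [F] using this
      · rw [Nat.choose_eq_zero_of_lt (by omega)] at h1 h2
        rw [Nat.choose_eq_zero_of_lt (by omega : x + 1 < y + 1)]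
        have c0 := Nat.centralBinom_ne_zero y
        have c1 := Nat.centralBinom_ne_zero (y + 1)
        have e1 : F x (y + 1) = 0 := by
          rcases Nat.mul_eq_zero.mp (by simpa using h1) with h | h
          · exact h
          · exact absurd h c1
        have e2 : F x y = 0 := by
          rcases Nat.mul_eq_zero.mp (by simpa using h2) with h | h
          · exact h
          · exact absurd h c0
        simp [F, e1, e2]

theorem rel1 (x y : ℕ) (h : y ≤ x) :
    2 * (2 * (y : ℤ) + 1) * (F x (y + 1) : ℤ) = ((x : ℤ) - y) * (F x y : ℤ) := by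
  have h1 := F_spec x (y + 1)
  have h2 := F_spec x y
  have h3 := Nat.succ_mul_centralBinom_succ y
  have h5 := Nat.choose_succ_right_eq x y
  obtain ⟨z, rfl⟩ := Nat.exists_eq_add_of_le h
  rw [Nat.add_sub_cancel_left] at h5
  have c0 : (centralBinom y : ℤ) ≠ 0 := by exact_mod_cast Nat.centralBinom_ne_zero y
  apply mul_right_cancel₀ c0
  zify at *
  linear_combination ((y : ℤ) + 1) * h1 - (z : ℤ) * h2 - (F (y + z) (y + 1) : ℤ) * h3 +
    (centralBinom (y + z) : ℤ) * h5

theorem rel2 (x y : ℕ) (h : y ≤ x) :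
    2 * (2 * (y : ℤ) + 1) * (2 * (y : ℤ) + 3) * (F (x + 1) (y + 2) : ℤ) =
      (2 * (x : ℤ) + 1) * ((x : ℤ) - y) * (F x y : ℤ) := by
  have h1 := F_spec (x + 1) (y + 2)
  have h2 := F_spec x y
  have h3 := Nat.succ_mul_centralBinom_succ y
  have h3' := Nat.succ_mul_centralBinom_succ (y + 1)
  have h4 := Nat.succ_mul_centralBinom_succ x
  have h5 := Nat.choose_succ_right_eq x y
  have h6 := Nat.add_one_mul_choose_eq x (y + 1)
  obtain ⟨z, rfl⟩ := Nat.exists_eq_add_of_le h
  rw [Nat.add_sub_cancel_left] at h5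
  have c0 : (centralBinom y : ℤ) ≠ 0 := by exact_mod_cast Nat.centralBinom_ne_zero y
  have c1 : 2 * ((y : ℤ) + z + 1) ≠ 0 := by positivity
  apply mul_right_cancel₀ c0
  apply mul_left_cancel₀ c1
  simp only [show y + 1 + 1 = y + 2 from rfl] at *
  zify at *
  linear_combination (((y : ℤ) + 1) * ((y : ℤ) + 2) * ((y : ℤ) + z + 1)) * h1
    - (((y : ℤ) + z + 1) * 2 * (2 * ((y : ℤ) + z) + 1) * z) * h2
    - (((y : ℤ) + 1) * ((y : ℤ) + z + 1) * (F (y + z + 1) (y + 2) : ℤ)) * h3'
    - (((y : ℤ) + z + 1) * (F (y + z + 1) (y + 2) : ℤ) * 2 * (2 * ((y : ℤ) + 1) + 1)) * h3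
    - (((y : ℤ) + 1) * ((y : ℤ) + z + 1) * (centralBinom (y + z + 1) : ℤ)) * h6
    + (((y : ℤ) + z + 1) ^ 2 * (centralBinom (y + z + 1) : ℤ)) * h5
    + (((y : ℤ) + z + 1) * z * ((y + z).choose y : ℤ)) * h4

theorem key (a b n F0 F1 F2 : ℤ) (h1 : 2 * (2 * (b * n) + 1) * F1 = (a * n - b * n) * F0)
    (h2 : 2 * (2 * (b * n) + 1) * (2 * (b * n) + 3) * F2 =
      (2 * (a * n) + 1) * (a * n - b * n) * F0) :
    (2 * b * n + 1) * (2 * b * n + 3) ∣ 3 * (a - b) * (3 * a - b) * F0 := by
  have e1 : n ^ 2 * ((3 * a - b) * (a - b) * F0) =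
      (2 * b * n + 1) * (2 * b * n + 3) * (3 * F2 - F1) := by
    have : 2 * (n ^ 2 * ((3 * a - b) * (a - b) * F0)) =
      2 * ((2 * b * n + 1) * (2 * b * n + 3) * (3 * F2 - F1)) := by
      linear_combination (2 * b * n + 3) * h1 - 3 * h2
    linarith
  by_cases h3 : (3 : ℤ) ∣ n
  · obtain ⟨m, rfl⟩ := h3
    have e2 : (6 * b * m + 1) * (2 * b * m + 1) * (2 * F2) =
        m * ((6 * a * m + 1) * ((a - b) * F0)) := by
      have : 3 * ((6 * b * m + 1) * (2 * b * m + 1) * (2 * F2)) =
          3 * (m * ((6 * a * m + 1) * ((a - b) * F0))) := by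
        linear_combination h2
      linarith
    have e3 : (6 * b * m + 1) * (2 * b * m + 1) * (3 * F2 - F1) =
        m ^ 2 * (3 * ((3 * a - b) * (a - b) * F0)) := by
      have : 3 * ((6 * b * m + 1) * (2 * b * m + 1) * (3 * F2 - F1)) =
          3 * (m ^ 2 * (3 * ((3 * a - b) * (a - b) * F0))) := by
        linear_combination -e1
      linarith
    have cop : IsCoprime ((6 * b * m + 1) * (2 * b * m + 1)) m := by
      apply IsCoprime.mul_left
      · exact ⟨1, -(6 * b), by ring⟩
      · exact ⟨1, -(2 * b), by ring⟩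
    have d1 : (6 * b * m + 1) * (2 * b * m + 1) ∣ (6 * a * m + 1) * ((a - b) * F0) :=
      cop.dvd_of_dvd_mul_left (Dvd.intro _ e2)
    have d2 : (6 * b * m + 1) * (2 * b * m + 1) ∣ 3 * ((3 * a - b) * (a - b) * F0) :=
      (cop.pow_right (n := 2)).dvd_of_dvd_mul_left (Dvd.intro _ e3)
    have d3 : (6 * b * m + 1) * (2 * b * m + 1) ∣ (3 * a - b) * (a - b) * F0 := by
      have h := dvd_sub (d1.mul_left (3 * a - b)) (d2.mul_left (2 * a * m))
      have e : (3 * a - b) * ((6 * a * m + 1) * ((a - b) * F0)) -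
          2 * a * m * (3 * ((3 * a - b) * (a - b) * F0)) = (3 * a - b) * (a - b) * F0 := by ring
      rwa [e] at h
    have d4 := mul_dvd_mul_left (3 : ℤ) d3
    have e5 : (2 * b * (3 * m) + 1) * (2 * b * (3 * m) + 3) =
        3 * ((6 * b * m + 1) * (2 * b * m + 1)) := by ring
    have e6 : 3 * (a - b) * (3 * a - b) * F0 = 3 * ((3 * a - b) * (a - b) * F0) := by ring
    rw [e5, e6]
    exact d4
  · have c3 : IsCoprime (3 : ℤ) n := by
      rw [Int.isCoprime_iff_gcd_eq_one]
      have hp : Nat.Prime 3 := by norm_num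
      rw [← Int.natAbs_dvd_natAbs] at h3
      exact (Nat.Prime.coprime_iff_not_dvd hp).mpr h3
    have cop : IsCoprime ((2 * b * n + 1) * (2 * b * n + 3)) n := by
      apply IsCoprime.mul_left
      · exact ⟨1, -(2 * b), by ring⟩
      · have := c3.add_mul_right_left (2 * b)
        rwa [add_comm] at this
    have d : (2 * b * n + 1) * (2 * b * n + 3) ∣ (3 * a - b) * (a - b) * F0 :=
      (cop.pow_right (n := 2)).dvd_of_dvd_mul_left (Dvd.intro _ e1.symm)
    have d4 := d.mul_left (3 : ℤ)
    have e6 : 3 * (a - b) * (3 * a - b) * F0 = 3 * ((3 * a - b) * (a - b) * F0) := by ring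
    rw [e6]
    exact d4

/-- The divisibility holds for all positive integers `a > b` and `n`. -/
theorem result (a b n : ℕ) (_hb : 0 < b) (_hn : 0 < n) (hab : b < a) :
    (2 * b * n + 1) * (2 * b * n + 3) * (2 * b * n).choose (b * n) ∣
      3 * (a - b) * (3 * a - b) * (2 * a * n).choose (a * n) * (a * n).choose (b * n) := by
  have hle : b * n ≤ a * n := Nat.mul_le_mul_right n hab.le
  have h1 := rel1 (a * n) (b * n) hle
  have h2 := rel2 (a * n) (b * n) hle
  push_cast at h1 h2
  have hk := key a b n _ _ _ h1 h2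
  have hs := F_spec (a * n) (b * n)
  rw [show 2 * b * n = 2 * (b * n) by ring, show 2 * a * n = 2 * (a * n) by ring,
    ← Nat.centralBinom_eq_two_mul_choose, ← Nat.centralBinom_eq_two_mul_choose]
  have hk' : (2 * (b * n) + 1) * (2 * (b * n) + 3) ∣
      3 * (a - b) * (3 * a - b) * F (a * n) (b * n) := by
    have e1 : ((a - b : ℕ) : ℤ) = (a : ℤ) - b := by push_cast [hab.le]; ring
    have e2 : ((3 * a - b : ℕ) : ℤ) = 3 * (a : ℤ) - b := by
      rw [Nat.cast_sub (by omega)]; push_cast; ring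
    rw [← Int.natCast_dvd_natCast]
    push_cast [e1, e2]
    simp only [← mul_assoc]
    exact hk
  have := Nat.mul_dvd_mul_right hk' (Nat.centralBinom (b * n))
  rw [mul_assoc (3 * (a - b) * (3 * a - b)), hs, ← mul_assoc] at this
  simpa only [mul_assoc] using this

end Pool.Agent.Results.MP_698530_nt.Divides
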